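import Pool.Agent.W_MP_960bf8_h40.Tools

/-!
# MP_960bf8_lc : `κ` is inaccessible in the model
-/

set_option autoImplicit false

universe u

open Cardinal Set HESR IM.BSet SQR
open IM (BSet)

namespace P96M

open BVM P96 PXY

section
variable {K D : Type u} [LinearOrder K] [WellFoundedLT K] [CompleteBooleanAlgebra D]

theorem tdMap {d r : BSet D} : TD1 (D := D) fun lam hl f => Maps (E hl) f (val hl d) (val hl r) ∧
    ¬ ∃ x, E hl x (val hl r) ∧ ∀ a y, App (E hl) f a y → E hl y x := by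
  refine TD.and (TD.maps (Tm.var 0) (Tm.const _) (Tm.const _)) (TD.not ?_)
  refine TD.ex (P := fun lam hl x v => E hl x (val hl r) ∧
    ∀ n y, App (E hl) (v 0) n y → E hl y x) ?_
  refine TD.and (TD.mem (Tm.var 0) (Tm.const _)) ?_
  refine TD.all (P := fun lam hl n v => ∀ y, App (E hl) (v 1) n y → E hl y (v 0)) ?_
  exact TD.all (P := fun lam hl y v => App (E hl) (v 2) (v 0) y → E hl y (v 1))
    (TD.imp (TD.app (Tm.var 3) (Tm.var 1) (Tm.var 0)) (TD.mem (Tm.var 0) (Tm.var 2)))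

/-- functions from `i` to `κ` are bounded -/
theorem bdd_i (h : Core960 K D) (i : K) {lam : D → Prop} (hl : IsUF lam) {f : X hl}
    (hf : Maps (E hl) f (val hl (chk i)) (val hl (chkT K))) :
    ∃ x, E hl x (val hl (chkT K)) ∧ ∀ a y, App (E hl) f a y → E hl y x := by
  by_contra hcon
  obtain ⟨F, c, hlc, hc0, hF⟩ := exists_forced tdMap ⟨hf, hcon⟩
  obtain ⟨b, z, hb0, hbc, hb⟩ := h.reg i (fun a x => c ⊓ apw F (chk a) (chk x))
    (fun a x y hxy => apw_sv (fun lam hl hlam => (hF lam hl hlam).1.1) hxy) c hc0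
  obtain ⟨lam, hl, hlam⟩ := exists_isUF hb0
  obtain ⟨h1, h2⟩ := hF lam hl (hl.mono hbc hlam)
  refine h2 ⟨_, E_chkT z, fun a y hay => ?_⟩
  have key : ∀ a, E hl a (val hl (chk i)) → ∀ y, E hl y (val hl (chkT K)) →
      App (E hl) (val hl F) a y → E hl y (val hl (chk z)) := by
    refine forall_chk (P := fun lam hl a => ∀ y, E hl y (val hl (chkT K)) →
      App (E hl) (val hl F) a y → E hl y (val hl (chk z))) ?_ (a := b) ?_ hlam
    · refine TD.all (P := fun lam hl y v => E hl y (val hl (chkT K)) →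
        App (E hl) (val hl F) (v 0) y → E hl y (val hl (chk z))) ?_
      exact TD.imp (TD.mem (Tm.var 0) (Tm.const _)) (TD.imp
        (TD.app (Tm.const _) (Tm.var 1) (Tm.var 0)) (TD.mem (Tm.var 0) (Tm.const _)))
    · intro a ha lam hl hlam
      refine forall_chkT (P := fun lam hl y => App (E hl) (val hl F) (val hl (chk a)) y →
        E hl y (val hl (chk z))) ?_ (a := b) ?_ hlam
      · exact TD.imp (TD.app (Tm.const _) (Tm.const _) (Tm.var 0)) (TD.mem (Tm.var 0) (Tm.const _))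
      · intro y lam hl hlam hay
        rcases lt_or_ge y z with h3 | h3
        · exact E_chk_of h3
        · have h4 := hb a ha y h3
          exact (hl.bot (h4 ▸ hl.inf hlam (hl.inf (hl.mono hbc hlam) (apw_iff.1 hay)))).elim
  exact key a (h1.1.dom (zfc hl) hay) y (h1.2 _ _ hay) hay

theorem bdd_all (h : Core960 K D) {lam : D → Prop} (hl : IsUF lam) :
    ∀ i, E hl i (val hl (chkT K)) → ∀ f, Maps (E hl) f i (val hl (chkT K)) →
      ∃ x, E hl x (val hl (chkT K)) ∧ ∀ a y, App (E hl) f a y → E hl y x := by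
  refine forall_chkT (P := fun lam hl i => ∀ f, Maps (E hl) f i (val hl (chkT K)) →
      ∃ x, E hl x (val hl (chkT K)) ∧ ∀ a y, App (E hl) f a y → E hl y x) ?_ (a := ⊤) ?_ hl.top
  · refine TD.all (P := fun lam hl f v => Maps (E hl) f (v 0) (val hl (chkT K)) →
      ∃ x, E hl x (val hl (chkT K)) ∧ ∀ a y, App (E hl) f a y → E hl y x) ?_
    refine TD.imp (TD.maps (Tm.var 0) (Tm.var 1) (Tm.const _)) ?_
    refine TD.ex (P := fun lam hl x v => E hl x (val hl (chkT K)) ∧
      ∀ a y, App (E hl) (v 0) a y → E hl y x) ?_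
    refine TD.and (TD.mem (Tm.var 0) (Tm.const _)) ?_
    refine TD.all (P := fun lam hl n v => ∀ y, App (E hl) (v 1) n y → E hl y (v 0)) ?_
    exact TD.all (P := fun lam hl y v => App (E hl) (v 2) (v 0) y → E hl y (v 1))
      (TD.imp (TD.app (Tm.var 3) (Tm.var 1) (Tm.var 0)) (TD.mem (Tm.var 0) (Tm.var 2)))
  · intro i lam hl _ f hf
    exact bdd_i h i hl hf

/-- `κ` is not covered by its elements -/
theorem isCard_K (h : Core960 K D) {lam : D → Prop} (hl : IsUF lam) :
    IsCard (E hl) (val hl (chkT K : BSet D)) := by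
  refine ⟨isOrd_chkT, fun β f hβ hf hon => ?_⟩
  -- the function with values restricted to `κ`
  have hZ := zfc hl
  obtain ⟨F, c, hlc, hc0, hF⟩ := exists_forced (P := fun lam hl f =>
    (∃ β, E hl β (val hl (chkT K)) ∧ IsFun (E hl) f β) ∧ ∀ y, E hl y (val hl (chkT K)) →
      ∃ x, App (E hl) f x y) (by
        refine TD.and ?_ ?_
        · exact TD.ex (P := fun lam hl β v => E hl β (val hl (chkT K)) ∧ IsFun (E hl) (v 0) β)
            (TD.and (TD.mem (Tm.var 0) (Tm.const _)) (TD.isFun (Tm.var 1) (Tm.var 0)))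
        · refine TD.all (P := fun lam hl y v => E hl y (val hl (chkT K)) → ∃ x, App (E hl) (v 0) x y) ?_
          refine TD.imp (TD.mem (Tm.var 0) (Tm.const _)) ?_
          exact TD.ex (P := fun lam hl x v => App (E hl) (v 1) x (v 0))
            (TD.app (Tm.var 2) (Tm.var 0) (Tm.var 1))) (z := f) ⟨⟨β, hβ, hf⟩, hon⟩
  obtain ⟨β', hβ', hfun'⟩ := (hF lam hl hlc).1
  -- find `i` with `dom ⊆ i` below `c`
  have key : ∀ β, E hl β (val hl (chkT K)) → ¬ (IsFun (E hl) (val hl F) β ∧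
      ∀ y, E hl y (val hl (chkT K)) → ∃ x, App (E hl) (val hl F) x y) := by
    refine forall_chkT (P := fun lam hl β => ¬ (IsFun (E hl) (val hl F) β ∧
      ∀ y, E hl y (val hl (chkT K)) → ∃ x, App (E hl) (val hl F) x y)) ?_ (a := ⊤) ?_ hl.top
    · refine TD.not (TD.and (TD.isFun (Tm.const _) (Tm.var 0)) ?_)
      refine TD.all (P := fun lam hl y v => E hl y (val hl (chkT K)) → ∃ x, App (E hl) (val hl F) x y) ?_
      refine TD.imp (TD.mem (Tm.var 0) (Tm.const _)) ?_
      exact TD.ex (P := fun lam hl x v => App (E hl) (val hl F) x (v 0))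
        (TD.app (Tm.const _) (Tm.var 0) (Tm.var 1))
    · rintro i lam hl _ ⟨h1, h2⟩
      have hT : TD0 (D := D) fun lam hl => IsFun (E hl) (val hl F) (val hl (chk i)) ∧
          ∀ y, E hl y (val hl (chkT K)) → ∃ x, App (E hl) (val hl F) x y := by
        refine TD.and (TD.isFun (Tm.const _) (Tm.const _)) ?_
        refine TD.all (P := fun lam hl y v => E hl y (val hl (chkT K)) →
          ∃ x, App (E hl) (val hl F) x y) ?_
        refine TD.imp (TD.mem (Tm.var 0) (Tm.const _)) ?_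
        exact TD.ex (P := fun lam hl x v => App (E hl) (val hl F) x (v 0))
          (TD.app (Tm.const _) (Tm.var 0) (Tm.var 1))
      set d : D := TD.b0 hT with hd
      have hld : lam d := (TD.b0_iff hT).1 ⟨h1, h2⟩
      have hd0 : d ≠ ⊥ := fun h0 => hl.bot (h0 ▸ hld)
      have hdf : ∀ (lam : D → Prop) (hl : IsUF lam), lam d → IsFun (E hl) (val hl F) (val hl (chk i)) ∧
          ∀ y, E hl y (val hl (chkT K)) → ∃ x, App (E hl) (val hl F) x y :=
        fun lam hl hlam => (TD.b0_iff hT).2 hlam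
      obtain ⟨b, z, hb0, hbc, hb⟩ := h.reg i (fun a x => d ⊓ apw F (chk a) (chk x))
        (fun a x y hxy => apw_sv (fun lam hl hlam => (hdf lam hl hlam).1) hxy) d hd0
      obtain ⟨lam, hl, hlam⟩ := exists_isUF hb0
      obtain ⟨h3, h4⟩ := hdf lam hl (hl.mono hbc hlam)
      obtain ⟨x, hx⟩ := h4 _ (E_chkT z)
      have h5 := exA_chk.1 ⟨x, h3.dom (zfc hl) hx, hx⟩
      refine hl.bot (hl.mono ?_ (hl.inf hlam h5))
      rw [inf_iSup_eq]
      refine iSup_le fun v => ?_
      have h6 := hb v.1 v.2 z le_rfl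
      rw [← inf_assoc, inf_eq_left.2 hbc] at h6
      exact h6.le
  exact key β' hβ' ⟨hfun', (hF lam hl hlc).2⟩

/-- `ω ∈ κ` -/
theorem omega_mem (h : Core960 K D) {lam : D → Prop} (hl : IsUF lam) :
    E hl (val hl (omB : BSet D)) (val hl (chkT K)) := by
  obtain ⟨f, x, hf, hx⟩ := h.unc
  have h1 : Sub (E hl) (val hl (omB : BSet D)) (val hl (chk x)) := by
    refine forall_omB (P := fun lam hl z => E hl z (val hl (chk x)))
      (TD.mem (Tm.var 0) (Tm.const _)) (a := ⊤) ?_ hl.top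
    intro n lam hl _
    exact (isOrd_chk _).trans (E_chk_of (hx _)) (F61M.natB_mem hf hl n)
  rcases (isOmega_omB.1.sub_iff (zfc hl) (isOrd_chk _)).1 h1 with h2 | h2
  · exact isOrd_chkT.trans (E_chkT x) h2
  · rw [h2]
    exact E_chkT x

/-- the name of an initial segment -/
theorem val_chkT_Iio (j : K) {lam : D → Prop} (hl : IsUF lam) :
    val hl (chkT (Iio j) : BSet D) = val hl (chk j) := by
  have key : ∀ (v : Iio j) {lam : D → Prop} (hl : IsUF lam),
      val hl (chk v : BSet D) = val hl (chk v.1) := fun v _ hl =>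
    val_chk_initial (fun v : Iio j => v.1) (fun s t h => h)
      (fun t s' hs' => ⟨⟨s', lt_trans hs' t.2⟩, hs', rfl⟩) v hl
  refine (zfc hl).ext _ _ fun z => ⟨?_, ?_⟩
  · revert z
    refine forall_chkT (P := fun lam hl z => E hl z (val hl (chk j)))
      (TD.mem (Tm.var 0) (Tm.const _)) (a := ⊤) ?_ hl.top
    intro v lam hl _
    rw [key v hl]
    exact E_chk_of v.2
  · revert z
    refine forall_chk (P := fun lam hl z => E hl z (val hl (chkT (Iio j))))
      (TD.mem (Tm.var 0) (Tm.const _)) (a := ⊤) ?_ hl.top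
    intro v hv lam hl _
    rw [← key ⟨v, hv⟩ hl]
    exact E_chkT _

/-- the powersets are covered -/
theorem pow_i (h : Core960 K D) (i : K) {lam : D → Prop} (hl : IsUF lam) {P : X hl}
    (hP : ∀ x, E hl x P ↔ Sub (E hl) x (val hl (chk i))) :
    ∃ j, E hl j (val hl (chkT K)) ∧ Cov (E hl) j P := by
  obtain ⟨j, F, hF⟩ := h.pow i
  refine ⟨_, E_chkT j, ?_⟩
  rw [← val_chkT_Iio j hl]
  refine Pool.Agent.W_61ad90.cov_pow (B := Iio j) (t := i) (F := fun y a => F y.1 a.1) ?_ hl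
    fun x hx => (hP x).1 hx
  intro g c hc
  classical
  obtain ⟨b, y, hb0, hbc, hy, hb⟩ := hF (fun a => if ha : a < i then g ⟨a, ha⟩ else ⊥) c hc
  refine ⟨b, ⟨y, hy⟩, hb0, hbc, fun a => ?_⟩
  have h1 := hb a.1 a.2
  rw [dif_pos (show a.1 < i from a.2)] at h1
  exact h1

theorem isInac_K (h : Core960 K D) {lam : D → Prop} (hl : IsUF lam) :
    IsInac (E hl) (val hl (chkT K : BSet D)) := by
  refine ⟨isCard_K h hl, ⟨_, isOmega_omB, omega_mem h hl⟩, fun i f hi hf => bdd_all h hl i hi f hf, ?_⟩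
  have key : ∀ i, E hl i (val hl (chkT K : BSet D)) → ∀ P, (∀ x, E hl x P ↔ Sub (E hl) x i) →
      ∃ j, E hl j (val hl (chkT K)) ∧ Cov (E hl) j P := by
    refine forall_chkT (P := fun lam hl i => ∀ P, (∀ x, E hl x P ↔ Sub (E hl) x i) →
      ∃ j, E hl j (val hl (chkT K)) ∧ Cov (E hl) j P) ?_ (a := ⊤) ?_ hl.top
    · refine TD.all (P := fun lam hl P v => (∀ x, E hl x P ↔ Sub (E hl) x (v 0)) →
        ∃ j, E hl j (val hl (chkT K)) ∧ Cov (E hl) j P) ?_
      refine TD.imp ?_ ?_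
      · exact TD.all (P := fun lam hl x v => E hl x (v 0) ↔ Sub (E hl) x (v 1))
          (TD.iff (TD.mem (Tm.var 0) (Tm.var 1)) (TD.sub (Tm.var 0) (Tm.var 2)))
      · exact TD.ex (P := fun lam hl j v => E hl j (val hl (chkT K)) ∧ Cov (E hl) j (v 0))
          (TD.and (TD.mem (Tm.var 0) (Tm.const _)) (TD.cov1 (Tm.var 0) (Tm.var 1)))
    · intro i lam hl _ P hP
      exact pow_i h i hl hP
  intro i P hi hP
  exact key i hi P hP

end

end P96M
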