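import Pool.Agent.W_MP_960bf8_h40.SqDiaM

/-!
# MP_960bf8_lc : the proxy principle fails in the model
-/

set_option autoImplicit false

universe u

open Cardinal Set HESR IM.BSet SQR
open IM (BSet)

namespace PXY
open HESR SQR

/-- the body of `P⁻` -/
def PrxB {T : Type*} (E : T → T → Prop) (F k : T) : Prop :=
  IsFun E F k ∧
    (∀ a S, E a k → IsLimO E a → App E F a S → (∃ C, E C S) ∧ (∃ j, E j k ∧ Cov E j S) ∧
      ∀ C, E C S → IsClub E C a ∧
        ∀ b R D, E b a → IsLimPt E C b → App E F b R → IsCap E D C b → E D R) ∧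
    ∀ B w n D, Sub E B k → (∀ x, E x k → ∃ y, E y B ∧ E x y) → IsOmega E w → E n w → IsClub E D k →
      ∃ a S, E a D ∧ IsLimO E a ∧ App E F a S ∧
        ∀ C x, E C S → E x a → ∃ g, E g C ∧ E x g ∧ NextIn E C B n g

theorem PrxB.fo {k : ℕ} (a b : Fin k) : FO.{u} (fun _ E v => PrxB E (v a) (v b)) := by
  unfold PrxB; (repeat' (first | exact IsFun.fo _ _ | exact IsClub.fo _ _ | exact IsLimO.fo _ | exact IsLimPt.fo _ _ | exact NextIn.fo _ _ _ _ | exact IsOmega.fo _ | exact IsCap.fo _ _ _ | exact App.fo _ _ _ | exact Cov.fo _ _ | exact Sub.fo _ _ | exact FO.mem _ _ | apply FO.not | apply FO.and | apply FO.imp | apply FO.ex | apply FO.all))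

section
variable {N : Type u} {E : N → N → Prop} (hZ : IsZFC E)
include hZ

/-- The next element above `g` of a set `C` of ordinals which is unbounded in `a`. -/
theorem exists_next {a C g : N} (ha : IsOrd E a) (hC : IsClub E C a) (hg : E g C) :
    ∃ d, E d C ∧ E g d ∧ ∀ z, E z d → E z C → ¬ E g z := by
  obtain ⟨y, hy, hgy⟩ := hC.2.1 g (hC.1 g hg)
  obtain ⟨d, _, ⟨hd1, hd2⟩, hd3⟩ := (ha.mem (hC.1 y hy)).least hZ (P := fun y => E y C ∧ E g y)
    (Def.and (Def.mem (DefFun.var _) (DefFun.const _)) (Def.mem (DefFun.const _) (DefFun.var _)))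
    ⟨hy, hgy⟩
  exact ⟨d, hd1, hd2, fun z hz hzC hgz => hd3 z hz ⟨hzC, hgz⟩⟩

/-- The next element is in `B` if `NextIn` holds with a natural number `n` which has an element. -/
theorem NextIn.next {C B n g d : N} (h : NextIn E C B n g) (hd : E d C) (hgd : E g d) (hn : ∃ z, E z n)
    (hmin : ∀ z, E z d → E z C → ¬ E g z) : E d B := by
  refine h d hd hgd ?_
  obtain ⟨s, hs⟩ := hZ.pair d d
  have hcov : Cov E n s := by
    obtain ⟨z0, hz0⟩ := hn
    refine Cov.ofRel hZ (R := fun _ y => y = d) (Def.eq (DefFun.var _) (DefFun.const _))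
      (fun x _ y z h1 h2 => h1.trans h2.symm) fun y hy => ⟨z0, hz0, ?_⟩
    rcases (hs y).1 hy with h1 | h1 <;> exact h1
  obtain ⟨f, hf, hfs⟩ := hcov
  refine ⟨f, hf, fun x hx hgx hxd => ?_⟩
  have : x = d := by
    rcases hxd with h1 | h1
    · exact (hmin x h1 hx hgx).elim
    · exact h1
  rw [this]
  exact hfs d ((hs d).2 (Or.inl rfl))

end

end PXY

namespace P96M

open BVM P96 PXY

section
variable {K D : Type u} [LinearOrder K] [WellFoundedLT K] [CompleteBooleanAlgebra D]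

theorem tdCn (F : BSet D) (a : K) (X : K → D) : TD0 (D := D) fun lam hl =>
    ∃ S, App (E hl) (val hl F) (val hl (chk a)) S ∧ E hl (val hl (sN a X)) S :=
  TD.ex (P := fun lam hl S _ => App (E hl) (val hl F) (val hl (chk a)) S ∧ E hl (val hl (sN a X)) S)
    (TD.and (TD.app (Tm.const _) (Tm.const _) (Tm.var 0)) (TD.mem (Tm.const _) (Tm.var 0)))

/-- the truth value of `X ∩ a ∈ F(a)` -/
noncomputable def Cn (F : BSet D) (a : K) (X : K → D) : D := TD.b0 (tdCn F a X)

theorem cn_iff {F : BSet D} {a : K} {X : K → D} {lam : D → Prop} {hl : IsUF lam} :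
    (∃ S, App (E hl) (val hl F) (val hl (chk a)) S ∧ E hl (val hl (sN a X)) S) ↔ lam (Cn F a X) :=
  TD.b0_iff (tdCn F a X)

theorem candV {F : BSet D} {c : D} (hF : ∀ (lam : D → Prop) (hl : IsUF lam), lam c →
    PrxB (E hl) (val hl F) (val hl (chkT K))) : CandV (K := K) (Cn F) c where
  ext a X Y d h := by
    rw [le_iff_ultra]
    intro lam hl hlam
    obtain ⟨h1, h2⟩ := hl.inf_iff.1 hlam
    obtain ⟨S, h3, h4⟩ := cn_iff.2 h2
    refine cn_iff.1 ⟨S, h3, ?_⟩
    have h5 : val hl (sN a X) = val hl (sN a Y) := ext_chk (sN_sub hl) (sN_sub hl) h1 fun x hx => by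
      rw [tr_sN _ hx, tr_sN _ hx, h x hx]
    rwa [← h5]
  ne a ha := by
    have hT : TD1 (D := D) fun lam hl C => ∃ S, App (E hl) (val hl F) (val hl (chk a)) S ∧ E hl C S ∧
        Sub (E hl) C (val hl (chk a)) :=
      TD.ex (P := fun lam hl S v => App (E hl) (val hl F) (val hl (chk a)) S ∧ E hl (v 0) S ∧
        Sub (E hl) (v 0) (val hl (chk a)))
        (TD.and (TD.app (Tm.const _) (Tm.const _) (Tm.var 0)) (TD.and (TD.mem (Tm.var 1) (Tm.var 0))
          (TD.sub (Tm.var 1) (Tm.const _))))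
    obtain ⟨C, hC⟩ := TD.exists_name hT
    refine le_trans ?_ (le_iSup (Cn F a) (tr C))
    rw [le_iff_ultra]
    intro lam hl hlam
    obtain ⟨h1, h2, _⟩ := hF lam hl hlam
    obtain ⟨S, hS⟩ := h1.ex (E_chkT a)
    obtain ⟨⟨C', hC'⟩, _, h3⟩ := h2 _ _ (E_chkT a) (isLimO_iff.2 ha) hS
    obtain ⟨S', h4, h5, h6⟩ := hC lam hl C' ⟨S, hS, hC', (h3 C' hC').1.1⟩
    refine cn_iff.1 ⟨S', h4, ?_⟩
    rwa [← eq_sN h6]
  club a X ha := by
    rw [le_iff_ultra]
    intro lam hl hlam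
    obtain ⟨h1, h2⟩ := hl.inf_iff.1 hlam
    obtain ⟨S, h3, h4⟩ := cn_iff.2 h2
    have h5 := (((hF lam hl h1).2.1 _ _ (E_chkT a) (isLimO_iff.2 ha) h3).2.2 _ h4).1
    have h6 := (club_iff.1 h5).2
    rwa [clubV_congr (fun x hx => tr_sN X hx)] at h6
  coh a b X ha hb hba := by
    rw [le_iff_ultra]
    intro lam hl hlam
    obtain ⟨h0, h7⟩ := hl.inf_iff.1 hlam
    obtain ⟨h1, h2⟩ := hl.inf_iff.1 h0
    obtain ⟨S, h3, h4⟩ := cn_iff.2 h2
    obtain ⟨R, hR⟩ := (hF lam hl h1).1.ex (E_chkT b)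
    have h5 := (((hF lam hl h1).2.1 _ _ (E_chkT a) (isLimO_iff.2 ha) h3).2.2 _ h4).2
    refine cn_iff.1 ⟨R, hR, h5 _ _ _ (E_chk_of hba) (limPt_iff.2 ⟨hb, ?_⟩) hR ?_⟩
    · rwa [unbV_congr (fun x hx => tr_sN X (hx.trans hba))]
    · refine isCap_of (sN_sub hl) hl.top fun x hx => ?_
      rw [tr_sN _ hx, tr_sN _ (hx.trans hba)]

/-- the value of the next element `y` of `X` above `x` is not in `B` -/
theorem bad_key {a s : K} {X B : K → D} {lam : D → Prop} {hl : IsUF lam}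
    (h : lam (⨅ p : {p : K × K // s < p.1 ∧ p.1 < p.2 ∧ p.2 < a}, (nxt X p.1.1 p.1.2 ⊓ B p.1.2)ᶜ)) :
    ∀ g, E hl g (val hl (chk a)) → ∀ d, E hl d (val hl (chk a)) → E hl (val hl (chk s)) g →
      E hl g (val hl (sN a X)) → E hl d (val hl (sN a X)) → E hl g d →
      (∀ z, E hl z d → E hl g z → ¬ E hl z (val hl (sN a X))) → ¬ E hl d (val hl (sT B)) := by
  set w := ⨅ p : {p : K × K // s < p.1 ∧ p.1 < p.2 ∧ p.2 < a}, (nxt X p.1.1 p.1.2 ⊓ B p.1.2)ᶜ with hw
  refine forall_chk (P := fun lam hl g => ∀ d, E hl d (val hl (chk a)) → E hl (val hl (chk s)) g →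
      E hl g (val hl (sN a X)) → E hl d (val hl (sN a X)) → E hl g d →
      (∀ z, E hl z d → E hl g z → ¬ E hl z (val hl (sN a X))) → ¬ E hl d (val hl (sT B))) ?_
      (a := w) ?_ h
  · refine TD.all (P := fun lam hl d v => E hl d (val hl (chk a)) → E hl (val hl (chk s)) (v 0) →
      E hl (v 0) (val hl (sN a X)) → E hl d (val hl (sN a X)) → E hl (v 0) d →
      (∀ z, E hl z d → E hl (v 0) z → ¬ E hl z (val hl (sN a X))) → ¬ E hl d (val hl (sT B))) ?_
    refine TD.imp (TD.mem (Tm.var 0) (Tm.const _)) (TD.imp (TD.mem (Tm.const _) (Tm.var 1))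
      (TD.imp (TD.mem (Tm.var 1) (Tm.const _)) (TD.imp (TD.mem (Tm.var 0) (Tm.const _))
        (TD.imp (TD.mem (Tm.var 1) (Tm.var 0)) (TD.imp ?_ (TD.not (TD.mem (Tm.var 0) (Tm.const _))))))))
    exact TD.all (P := fun lam hl z v => E hl z (v 0) → E hl (v 1) z → ¬ E hl z (val hl (sN a X)))
      (TD.imp (TD.mem (Tm.var 0) (Tm.var 1)) (TD.imp (TD.mem (Tm.var 2) (Tm.var 0))
        (TD.not (TD.mem (Tm.var 0) (Tm.const _)))))
  · intro g hga lam hl hlam
    refine forall_chk (P := fun lam hl d => E hl (val hl (chk s)) (val hl (chk g)) →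
      E hl (val hl (chk g)) (val hl (sN a X)) → E hl d (val hl (sN a X)) → E hl (val hl (chk g)) d →
      (∀ z, E hl z d → E hl (val hl (chk g)) z → ¬ E hl z (val hl (sN a X))) →
        ¬ E hl d (val hl (sT B))) ?_ (a := w) ?_ hlam
    · refine (TD.imp (TD.mem (Tm.const _) (Tm.const _))
        (TD.imp (TD.mem (Tm.const _) (Tm.const _)) (TD.imp (TD.mem (Tm.var 0) (Tm.const _))
          (TD.imp (TD.mem (Tm.const _) (Tm.var 0)) (TD.imp ?_ (TD.not (TD.mem (Tm.var 0) (Tm.const _))))))))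
      exact TD.all (P := fun lam hl z v => E hl z (v 0) → E hl (val hl (chk g)) z →
        ¬ E hl z (val hl (sN a X))) (TD.imp (TD.mem (Tm.var 0) (Tm.var 1))
          (TD.imp (TD.mem (Tm.const _) (Tm.var 0)) (TD.not (TD.mem (Tm.var 0) (Tm.const _)))))
    · intro d hda lam hl hlam h1 h2 h3 h4 h5 h6
      have hsg : s < g := E_chk.1 h1
      have hgd : g < d := E_chk.1 h4
      rw [tr_iff, tr_sN _ hga] at h2
      rw [tr_iff, tr_sN _ hda] at h3
      rw [tr_iff, tr_sT] at h6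
      have h7 : lam (⨅ z : Ioo g d, (X z.1)ᶜ) := by
        classical
        have h8 : (⨅ z : Iio d, if g < z.1 then (X z.1)ᶜ else ⊤) = ⨅ z : Ioo g d, (X z.1)ᶜ := by
          apply le_antisymm
          · refine le_iInf fun z => ?_
            refine (iInf_le _ (⟨z.1, z.2.2⟩ : Iio d)).trans ?_
            rw [if_pos z.2.1]
          · refine le_iInf fun z => ?_
            split_ifs with h
            · exact iInf_le (fun z : Ioo g d => (X z.1)ᶜ) ⟨z.1, h, z.2⟩
            · exact le_top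
        rw [← h8]
        refine (forall_chk_iff' (P := fun lam hl z => E hl (val hl (chk g)) z →
          ¬ E hl z (val hl (sN a X))) (TD.imp (TD.mem (Tm.const _) (Tm.var 0))
            (TD.not (TD.mem (Tm.var 0) (Tm.const _)))) ?_ (hl := hl)).1 h5
        intro y lam hl
        rw [E_chk, tr_iff, tr_sN _ (lt_trans y.2 hda)]
        split_ifs with h
        · rw [hl.compl_iff]
          exact ⟨fun h' => h' h, fun h' _ => h'⟩
        · exact ⟨fun _ => hl.top, fun _ h' => (h h').elim⟩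
      have h9 := hl.mono (iInf_le (fun p : {p : K × K // s < p.1 ∧ p.1 < p.2 ∧ p.2 < a} =>
        (nxt X p.1.1 p.1.2 ⊓ B p.1.2)ᶜ) ⟨(g, d), hsg, hgd, hda⟩) hlam
      exact hl.compl_iff.1 h9 (hl.inf (hl.inf (hl.inf h2 h3) h7) h6)

/-- `P⁻` fails -/
theorem not_prx (h : Core960 K D) {lam : D → Prop} (hl : IsUF lam) :
    ¬ Prx (E hl) (val hl (chkT K : BSet D)) := by
  rintro ⟨F0, hF0⟩
  obtain ⟨F, c, _, hc0, hF⟩ := exists_forced (P := fun lam hl F => PrxB (E hl) F (val hl (chkT K)))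
    (TD.fo2 (R := fun _ E a b => PrxB E a b) (PrxB.fo 0 1) (Tm.var 0) (Tm.const _)) hF0
  obtain ⟨b, B, e, hb0, hbc, hB, he, hbad⟩ := h.kill (Cn F) c hc0 (candV hF)
  obtain ⟨lam, hl, hlam⟩ := exists_isUF hb0
  have htB : (tr (sT B) : K → D) = B := funext (tr_sT B)
  have hte : (tr (sT e) : K → D) = e := funext (tr_sT e)
  obtain ⟨a, S, ha, hlim, hS, hC⟩ := (hF lam hl (hl.mono hbc hlam)).2.2 (val hl (sT B)) _
    (val hl (natB 1)) (val hl (sT e)) (sT_sub hl) (by
      intro x hx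
      have h1 : lam (cofT (K := K) (tr (sT B))) := by
        rw [htB]
        exact hl.mono hB hlam
      obtain ⟨y, _, h2, h3⟩ := cof_iff.2 h1 x hx
      exact ⟨y, h2, h3⟩) isOmega_omB (E_omB 1) (by
      refine clubT_iff.2 ⟨sT_sub hl, ?_⟩
      rw [hte]
      exact hl.mono he hlam)
  have key : ∀ a, E hl a (val hl (sT e)) → ∀ S, IsLimO (E hl) a → App (E hl) (val hl F) a S →
      ∃ C x, E hl C S ∧ E hl x a ∧ ∀ g, E hl g C → E hl x g →
        ¬ NextIn (E hl) C (val hl (sT B)) (val hl (natB 1)) g := by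
    refine forall_mk (P := fun lam hl a => ∀ S, IsLimO (E hl) a → App (E hl) (val hl F) a S →
      ∃ C x, E hl C S ∧ E hl x a ∧ ∀ g, E hl g C → E hl x g →
        ¬ NextIn (E hl) C (val hl (sT B)) (val hl (natB 1)) g) ?_ (a := b) ?_ hlam
    · refine TD.all (P := fun lam hl S v => IsLimO (E hl) (v 0) → App (E hl) (val hl F) (v 0) S →
        ∃ C x, E hl C S ∧ E hl x (v 0) ∧ ∀ g, E hl g C → E hl x g →
          ¬ NextIn (E hl) C (val hl (sT B)) (val hl (natB 1)) g) ?_
      refine TD.imp (isLimO_fo (Tm.var 1)) (TD.imp (TD.app (Tm.const _) (Tm.var 1) (Tm.var 0)) ?_)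
      refine TD.ex (P := fun lam hl C v => ∃ x, E hl C (v 0) ∧ E hl x (v 1) ∧ ∀ g, E hl g C → E hl x g →
          ¬ NextIn (E hl) C (val hl (sT B)) (val hl (natB 1)) g) ?_
      refine TD.ex (P := fun lam hl x v => E hl (v 0) (v 1) ∧ E hl x (v 2) ∧ ∀ g, E hl g (v 0) →
          E hl x g → ¬ NextIn (E hl) (v 0) (val hl (sT B)) (val hl (natB 1)) g) ?_
      refine TD.and (TD.mem (Tm.var 1) (Tm.var 2)) (TD.and (TD.mem (Tm.var 0) (Tm.var 3)) ?_)
      exact TD.all (P := fun lam hl g v => E hl g (v 1) → E hl (v 0) g →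
          ¬ NextIn (E hl) (v 1) (val hl (sT B)) (val hl (natB 1)) g)
        (TD.imp (TD.mem (Tm.var 0) (Tm.var 2)) (TD.imp (TD.mem (Tm.var 1) (Tm.var 0)) (TD.not
          (TD.fo4 (R := fun _ E a b c d => NextIn E a b c d) (NextIn.fo 0 1 2 3) (Tm.var 2)
            (Tm.const _) (Tm.const _) (Tm.var 0)))))
    · intro a lam hl hlam hea S hlim hS
      have hla : Lim a := isLimO_iff.1 hlim
      have hcl := hl.mono hbc hlam
      -- the truth value of the conclusion
      have hΨ : ∀ C : BSet D, TD1 (D := D) fun lam hl x => ∀ g, E hl g (val hl C) → E hl x g →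
          ¬ NextIn (E hl) (val hl C) (val hl (sT B)) (val hl (natB 1)) g := fun C =>
        TD.all (P := fun lam hl g v => E hl g (val hl C) → E hl (v 0) g →
          ¬ NextIn (E hl) (val hl C) (val hl (sT B)) (val hl (natB 1)) g)
          (TD.imp (TD.mem (Tm.var 0) (Tm.const _)) (TD.imp (TD.mem (Tm.var 1) (Tm.var 0)) (TD.not
            (TD.fo4 (R := fun _ E a b c d => NextIn E a b c d) (NextIn.fo 0 1 2 3) (Tm.const _)
              (Tm.const _) (Tm.const _) (Tm.var 0)))))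
      have hT : TD0 (D := D) fun lam hl => ∀ S, App (E hl) (val hl F) (val hl (chk a)) S →
          ∃ C x, E hl C S ∧ E hl x (val hl (chk a)) ∧ ∀ g, E hl g C → E hl x g →
            ¬ NextIn (E hl) C (val hl (sT B)) (val hl (natB 1)) g := by
        refine TD.all (P := fun lam hl S v => App (E hl) (val hl F) (val hl (chk a)) S →
          ∃ C x, E hl C S ∧ E hl x (val hl (chk a)) ∧ ∀ g, E hl g C → E hl x g →
            ¬ NextIn (E hl) C (val hl (sT B)) (val hl (natB 1)) g) ?_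
        refine TD.imp (TD.app (Tm.const _) (Tm.const _) (Tm.var 0)) ?_
        refine TD.ex (P := fun lam hl C v => ∃ x, E hl C (v 0) ∧ E hl x (val hl (chk a)) ∧
          ∀ g, E hl g C → E hl x g → ¬ NextIn (E hl) C (val hl (sT B)) (val hl (natB 1)) g) ?_
        refine TD.ex (P := fun lam hl x v => E hl (v 0) (v 1) ∧ E hl x (val hl (chk a)) ∧
          ∀ g, E hl g (v 0) → E hl x g →
            ¬ NextIn (E hl) (v 0) (val hl (sT B)) (val hl (natB 1)) g) ?_
        refine TD.and (TD.mem (Tm.var 1) (Tm.var 2)) (TD.and (TD.mem (Tm.var 0) (Tm.const _)) ?_)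
        exact TD.all (P := fun lam hl g v => E hl g (v 1) → E hl (v 0) g →
            ¬ NextIn (E hl) (v 1) (val hl (sT B)) (val hl (natB 1)) g)
          (TD.imp (TD.mem (Tm.var 0) (Tm.var 2)) (TD.imp (TD.mem (Tm.var 1) (Tm.var 0)) (TD.not
            (TD.fo4 (R := fun _ E a b c d => NextIn E a b c d) (NextIn.fo 0 1 2 3) (Tm.var 2)
              (Tm.const _) (Tm.const _) (Tm.var 0)))))
      have hle : ∀ X : K → D, c ⊓ (Cn F a X ⊓ badV X B a) ≤ TD.b0 hT := by
        intro X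
        rw [TD.le_b0]
        intro lam hl hlam S hS
        obtain ⟨h1, h2⟩ := hl.inf_iff.1 hlam
        obtain ⟨h3, h4⟩ := hl.inf_iff.1 h2
        obtain ⟨S', h5, h6⟩ := cn_iff.2 h3
        obtain ⟨hfun, hcl, _⟩ := hF lam hl h1
        obtain rfl := hfun.val (zfc hl) h5 hS
        -- a bound
        have h7 : lam (⨆ s : Iio a, TD.b1 (hΨ (sN a X)) (chk s.1)) := by
          refine hl.mono ?_ (hl.inf h4 (hl.inf h1 h3))
          unfold badV
          rw [iSup_inf_eq]
          refine iSup_mono fun s => ?_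
          rw [TD.le_b1]
          intro lam hl hlam g hg hsg hnx
          obtain ⟨h8, h9⟩ := hl.inf_iff.1 hlam
          obtain ⟨h10, h11⟩ := hl.inf_iff.1 h9
          obtain ⟨S, hS1, hS2⟩ := cn_iff.2 h11
          have hclub := (((hF lam hl h10).2.1 _ _ (E_chkT a) (isLimO_iff.2 hla) hS1).2.2 _ hS2).1
          obtain ⟨d, hd1, hd2, hd3⟩ := exists_next (zfc hl) (isOrd_chk a) hclub hg
          refine bad_key h8 g (hclub.1 g hg) d (hclub.1 d hd1) hsg hg hd1 hd2 
            (fun z hz hgz hzC => hd3 z hz hzC hgz) ?_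
          exact hnx.next (zfc hl) hd1 hd2 ⟨_, E_natB_of (m := 0) Nat.zero_lt_one⟩ hd3
        obtain ⟨x, hx1, hx2⟩ := (exists_chk_iff (hΨ (sN a X))).2 h7
        exact ⟨_, x, h6, hx1, hx2⟩
      have h8 : lam (TD.b0 hT) := by
        refine hl.mono ?_ (hl.inf hcl (hl.inf hlam hea))
        refine (inf_le_inf_left c (hbad a hla)).trans ?_
        rw [inf_iSup_eq]
        exact iSup_le hle
      exact (TD.b0_iff hT).2 h8 S hS
  obtain ⟨C, x, h1, h2, h3⟩ := key a ha S hlim hS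
  obtain ⟨g, h4, h5, h6⟩ := hC C x h1 h2
  exact h3 g h4 h5 h6

end

end P96M
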