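import Mathlib

/-!
# MP_960bf8_lc : what the native part delivers about the visible algebra

`K` is a well-order of type `κ`, `D` is the visible algebra (a complete Boolean algebra; the final model is the
Boolean-valued model over `D`).  Subsets of `κ` in the final model are given by functions `X : K → D`
(`X x` is the truth value of `x ∈ X`).
-/

universe u

open Set

namespace P96

section
variable {K D : Type u} [LinearOrder K] [CompleteBooleanAlgebra D]

/-- `a` is a limit element -/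
def Lim (a : K) : Prop := (∃ x, x < a) ∧ ∀ x < a, ∃ y, x < y ∧ y < a

/-- the truth value of `X ∩ a` is unbounded in `a` -/
def unbV (X : K → D) (a : K) : D := ⨅ x : Iio a, ⨆ y : Ioo x.1 a, X y.1

/-- the truth value of `X ∩ a` is closed and unbounded in `a` -/
def clubV (X : K → D) (a : K) : D :=
  unbV X a ⊓ ⨅ b : {b : K // b < a ∧ Lim b}, (unbV X b.1)ᶜ ⊔ X b.1

/-- the truth value of `X` is cofinal in `κ` -/
def cofT (X : K → D) : D := ⨅ x : K, ⨆ y : Ioi x, X y.1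

/-- the truth value of `X` is closed and unbounded in `κ` -/
def clubT (X : K → D) : D := cofT X ⊓ ⨅ b : {b : K // Lim b}, (unbV X b.1)ᶜ ⊔ X b.1

/-- the truth value of `x, y ∈ X`, and `y` is the next element of `X` above `x` (for `x < y`) -/
def nxt (X : K → D) (x y : K) : D := X x ⊓ X y ⊓ ⨅ z : Ioo x y, (X z.1)ᶜ

/-- the truth value of there is `s < a` such that no next element `y < a` of `X` above an element
`x > s` of `X` is in `B` -/
def badV (X B : K → D) (a : K) : D :=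
  ⨆ s : Iio a, ⨅ p : {p : K × K // s.1 < p.1 ∧ p.1 < p.2 ∧ p.2 < a}, (nxt X p.1.1 p.1.2 ⊓ B p.1.2)ᶜ

/-- `c` forces that the sets `C_a = {X ∩ a : Cn a X}` satisfy the clauses 1, 2 of the problem (except the
bound on the cardinality of `C_a`) -/
structure CandV (Cn : K → (K → D) → D) (c : D) : Prop where
  /-- `Cn a X` depends on `X ∩ a` only -/
  ext : ∀ (a : K) (X Y : K → D) (d : D), (∀ x < a, d ⊓ X x = d ⊓ Y x) → d ⊓ Cn a X ≤ Cn a Y
  /-- `C_a` is not empty -/
  ne : ∀ a, Lim a → c ≤ ⨆ X, Cn a X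
  /-- the elements of `C_a` are club in `a` -/
  club : ∀ a X, Lim a → c ⊓ Cn a X ≤ clubV X a
  /-- coherence: if `b < a` is a limit point of `X ∈ C_a` then `X ∩ b ∈ C_b` -/
  coh : ∀ a b X, Lim a → Lim b → b < a → c ⊓ Cn a X ⊓ unbV X b ≤ Cn b X

end

/-- The properties of the visible algebra. -/
structure Core960 (K D : Type u) [LinearOrder K] [CompleteBooleanAlgebra D] : Prop where
  /-- `κ` is uncountable -/
  unc : ∃ (f : ℕ → K) (x : K), (∀ n, f n < f (n + 1)) ∧ ∀ n, f n < x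
  /-- `κ` is regular: functions of the extension from a proper initial segment of `K` to `K` are bounded -/
  reg : ∀ (i : K) (F : K → K → D), (∀ a x y, x ≠ y → F a x ⊓ F a y = ⊥) → ∀ c : D, c ≠ ⊥ →
    ∃ (b : D) (z : K), b ≠ ⊥ ∧ b ≤ c ∧ ∀ a < i, ∀ x, z ≤ x → b ⊓ F a x = ⊥
  /-- `κ` is a strong limit: the subsets in the extension of a proper initial segment of `K` are enumerated
  by a proper initial segment of `K` -/
  pow : ∀ i : K, ∃ (j : K) (F : K → K → D), ∀ (g : K → D) (c : D), c ≠ ⊥ →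
    ∃ (b : D) (y : K), b ≠ ⊥ ∧ b ≤ c ∧ y < j ∧ ∀ a < i, b ⊓ g a = b ⊓ F y a
  /-- `□(κ)` : `T a x` is the truth value of `x ∈ T_a` -/
  sq : ∃ T : K → K → D, (∀ a, Lim a → clubV (T a) a = ⊤) ∧
    (∀ a b, Lim a → Lim b → b < a → ∀ x < b, unbV (T a) b ⊓ T a x = unbV (T a) b ⊓ T b x) ∧
    ∀ (e : K → D) (c : D), c ≠ ⊥ → c ≤ clubT e →
      ¬ ∀ a, Lim a → ∀ x < a, c ⊓ unbV e a ⊓ e x = c ⊓ unbV e a ⊓ T a x
  /-- `◇(κ)` -/
  dia : ∃ A : K → K → D, ∀ (X e : K → D) (c : D), c ≠ ⊥ → c ≤ clubT e →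
    ∃ (b : D) (a : K), b ≠ ⊥ ∧ b ≤ c ∧ b ≤ e a ∧ ∀ x < a, b ⊓ X x = b ⊓ A a x
  /-- every candidate is killed by a cofinal set `B` on a club `e` -/
  kill : ∀ (Cn : K → (K → D) → D) (c : D), c ≠ ⊥ → CandV Cn c →
    ∃ (b : D) (B e : K → D), b ≠ ⊥ ∧ b ≤ c ∧ b ≤ cofT B ∧ b ≤ clubT e ∧
      ∀ a, Lim a → b ⊓ e a ≤ ⨆ X : K → D, Cn a X ⊓ badV X B a

end P96
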