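import Pool.Agent.W_61ad90_h32.Stmt61

set_option autoImplicit false

/-!
# MP_960bf8_lc : the notions of the statement

Inaccessible cardinals, `□(κ)`, `◇(κ)` and the proxy principle `P⁻(κ,κ,⊑,1,{κ},κ)` in a structure `(T, E)`.
-/

namespace PXY
open HESR SQR
universe u

section defs
variable {T : Type u} (E : T → T → Prop)

/-- `a` is a limit ordinal -/
def IsLimO (a : T) : Prop := IsOrd E a ∧ (∃ x, E x a) ∧ ∀ x, E x a → ∃ y, E y a ∧ E x y

/-- the ordinal `b` is a limit point of `X` -/
def IsLimPt (X b : T) : Prop := (∃ x, E x b) ∧ ∀ x, E x b → ∃ y, E y X ∧ E x y ∧ E y b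

/-- `C` is a closed unbounded subset of the ordinal `a` -/
def IsClub (C a : T) : Prop :=
  Sub E C a ∧ (∀ x, E x a → ∃ y, E y C ∧ E x y) ∧ ∀ b, E b a → IsLimPt E C b → E b C

/-- `y = x ∩ b` -/
def IsCap (y x b : T) : Prop := ∀ z, E z y ↔ E z x ∧ E z b

/-- `k` is an inaccessible cardinal: an uncountable cardinal, every function from an element of `k` to `k`
is bounded in `k`, and the powerset of an element of `k` is the image of an element of `k` -/
def IsInac (k : T) : Prop :=
  IsCard E k ∧ (∃ w, IsOmega E w ∧ E w k) ∧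
    (∀ i f, E i k → Maps E f i k → ∃ x, E x k ∧ ∀ a y, App E f a y → E y x) ∧
    ∀ i P, E i k → (∀ x, E x P ↔ Sub E x i) → ∃ j, E j k ∧ Cov E j P

/-- the principle `□(k)` -/
def Sqr (k : T) : Prop :=
  ∃ t, IsFun E t k ∧
    (∀ a C, E a k → IsLimO E a → App E t a C →
      IsClub E C a ∧ ∀ b C', E b a → IsLimPt E C b → App E t b C' → IsCap E C' C b) ∧
    ¬ ∃ D, IsClub E D k ∧ ∀ a C, E a k → IsLimPt E D a → App E t a C → IsCap E C D a

/-- Jensen's diamond principle `◇(k)` -/
def Dia (k : T) : Prop :=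
  ∃ s, IsFun E s k ∧ ∀ X D, Sub E X k → IsClub E D k → ∃ a Y, E a D ∧ App E s a Y ∧ IsCap E Y X a

/-- for a natural number `n` : the next `n` elements of `C` above `g` are in `B`, i.e. every element `d > g` of
`C`, for which there are at most `n` elements of `C` in the interval `(g, d]`, is in `B` -/
def NextIn (C B n g : T) : Prop :=
  ∀ d, E d C → E g d →
    (∃ f, IsFun E f n ∧ ∀ x, E x C → E g x → (E x d ∨ x = d) → ∃ i, App E f i x) → E d B

/-- the principle `P⁻(k,k,⊑,1,{k},k)` -/
def Prx (k : T) : Prop :=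
  ∃ F, IsFun E F k ∧
    (∀ a S, E a k → IsLimO E a → App E F a S → (∃ C, E C S) ∧ (∃ j, E j k ∧ Cov E j S) ∧
      ∀ C, E C S → IsClub E C a ∧
        ∀ b R D, E b a → IsLimPt E C b → App E F b R → IsCap E D C b → E D R) ∧
    ∀ B w n D, Sub E B k → (∀ x, E x k → ∃ y, E y B ∧ E x y) → IsOmega E w → E n w → IsClub E D k →
      ∃ a S, E a D ∧ IsLimO E a ∧ App E F a S ∧
        ∀ C x, E C S → E x a → ∃ g, E g C ∧ E x g ∧ NextIn E C B n g

/-- `□(k)` and `◇(k)` hold, and `P⁻(k,k,⊑,1,{k},k)` fails, for some inaccessible cardinal `k` -/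
def SqDiaNotPrx : Prop := ∃ k, IsInac E k ∧ Sqr E k ∧ Dia E k ∧ ¬ Prx E k

end defs

/-! ### The notions are uniformly first-order -/

section fo
variable {k : ℕ}

theorem IsLimO.fo (a : Fin k) : FO.{u} (fun _ E v => IsLimO E (v a)) := by
  unfold IsLimO; (repeat' (first | exact IsOrd.fo _ | exact FO.mem _ _ | apply FO.and | apply FO.imp | apply FO.ex | apply FO.all))

theorem IsLimPt.fo (a b : Fin k) : FO.{u} (fun _ E v => IsLimPt E (v a) (v b)) := by
  unfold IsLimPt; (repeat' (first | exact FO.mem _ _ | apply FO.and | apply FO.imp | apply FO.ex | apply FO.all))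

theorem IsClub.fo (a b : Fin k) : FO.{u} (fun _ E v => IsClub E (v a) (v b)) := by
  unfold IsClub; (repeat' (first | exact Sub.fo _ _ | exact IsLimPt.fo _ _ | exact FO.mem _ _ | apply FO.and | apply FO.imp | apply FO.ex | apply FO.all))

theorem IsCap.fo (a b c : Fin k) : FO.{u} (fun _ E v => IsCap E (v a) (v b) (v c)) := by
  unfold IsCap; (repeat' (first | exact FO.mem _ _ | apply FO.iff | apply FO.and | apply FO.imp | apply FO.ex | apply FO.all))

theorem IsInac.fo (a : Fin k) : FO.{u} (fun _ E v => IsInac E (v a)) := by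
  unfold IsInac; (repeat' (first | exact IsCard.fo _ | exact IsOmega.fo _ | exact Maps.fo _ _ _ | exact App.fo _ _ _ | exact Cov.fo _ _ | exact Sub.fo _ _ | exact FO.mem _ _ | apply FO.iff | apply FO.and | apply FO.imp | apply FO.ex | apply FO.all))

theorem Sqr.fo (a : Fin k) : FO.{u} (fun _ E v => Sqr E (v a)) := by
  unfold Sqr; (repeat' (first | exact IsFun.fo _ _ | exact IsClub.fo _ _ | exact IsLimO.fo _ | exact IsLimPt.fo _ _ | exact IsCap.fo _ _ _ | exact App.fo _ _ _ | exact FO.mem _ _ | apply FO.not | apply FO.and | apply FO.imp | apply FO.ex | apply FO.all))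

theorem Dia.fo (a : Fin k) : FO.{u} (fun _ E v => Dia E (v a)) := by
  unfold Dia; (repeat' (first | exact IsFun.fo _ _ | exact IsClub.fo _ _ | exact IsCap.fo _ _ _ | exact App.fo _ _ _ | exact Sub.fo _ _ | exact FO.mem _ _ | apply FO.not | apply FO.and | apply FO.imp | apply FO.ex | apply FO.all))

theorem NextIn.fo (a b c d : Fin k) : FO.{u} (fun _ E v => NextIn E (v a) (v b) (v c) (v d)) := by
  unfold NextIn; (repeat' (first | exact IsFun.fo _ _ | exact App.fo _ _ _ | exact FO.mem _ _ | exact FO.eq _ _ | apply FO.or | apply FO.and | apply FO.imp | apply FO.ex | apply FO.all))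

theorem Prx.fo (a : Fin k) : FO.{u} (fun _ E v => Prx E (v a)) := by
  unfold Prx; (repeat' (first | exact IsFun.fo _ _ | exact IsClub.fo _ _ | exact IsLimO.fo _ | exact IsLimPt.fo _ _ | exact NextIn.fo _ _ _ _ | exact IsOmega.fo _ | exact IsCap.fo _ _ _ | exact App.fo _ _ _ | exact Cov.fo _ _ | exact Sub.fo _ _ | exact FO.mem _ _ | apply FO.not | apply FO.and | apply FO.imp | apply FO.ex | apply FO.all))

theorem SqDiaNotPrx.fo : FO.{u} (fun _ E (_ : Fin k → _) => SqDiaNotPrx E) := by
  unfold SqDiaNotPrx; (repeat' (first | exact IsInac.fo _ | exact Sqr.fo _ | exact Dia.fo _ | exact Prx.fo _ | apply FO.not | apply FO.and | apply FO.ex))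

end fo

end PXY
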