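import Pool.Agent.W_MP_f61043_h40.CardF
import Pool.Agent.W_MP_960bf8_h40.Core960
import Pool.Agent.W_MP_960bf8_h40.Stmt

/-!
# MP_960bf8_lc : names of subsets of `κ`, limit points, clubs
-/

set_option autoImplicit false

universe u

open Cardinal Set HESR IM.BSet SQR
open IM (BSet)

namespace BVM

section
variable {D : Type u} [CompleteBooleanAlgebra D] {K : Type u} [LinearOrder K] [WellFoundedLT K]

theorem forall_chk_iff' {P : ∀ (lam : D → Prop) (hl : IsUF lam), X hl → Prop} (h : TD1 P) {w : K}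
    {Q : Iio w → D} (hQ : ∀ (y : Iio w) (lam : D → Prop) (hl : IsUF lam),
      P lam hl (val hl (chk y.1)) ↔ lam (Q y)) {lam : D → Prop} {hl : IsUF lam} :
    (∀ z, E hl z (val hl (chk w)) → P lam hl z) ↔ lam (⨅ y, Q y) := by
  have h1 : (⨅ i : Iio w, (⊤ : D)ᶜ ⊔ TD.b1 h (chk i.1)) = ⨅ y, Q y := by
    refine iInf_congr fun y => ?_
    rw [compl_top, bot_sup_eq]
    exact eq_iff_ultra.2 fun lam hl => by rw [← TD.b1_iff h (hl := hl), hQ y lam hl]
  rw [chk_eq w, ← h1]
  exact forall_mem_iff h (x := nm fun v : Iio w => chk v.1)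

theorem exists_chk_iff' {P : ∀ (lam : D → Prop) (hl : IsUF lam), X hl → Prop} (h : TD1 P) {w : K}
    {Q : Iio w → D} (hQ : ∀ (y : Iio w) (lam : D → Prop) (hl : IsUF lam),
      P lam hl (val hl (chk y.1)) ↔ lam (Q y)) {lam : D → Prop} {hl : IsUF lam} :
    (∃ z, E hl z (val hl (chk w)) ∧ P lam hl z) ↔ lam (⨆ y, Q y) := by
  have h1 : (⨆ i : Iio w, TD.b1 h (chk i.1)) = ⨆ y, Q y := by
    refine iSup_congr fun y => ?_
    exact eq_iff_ultra.2 fun lam hl => by rw [← TD.b1_iff h (hl := hl), hQ y lam hl]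
  rw [exists_chk_iff h, h1]

theorem forall_chkT_iff' {P : ∀ (lam : D → Prop) (hl : IsUF lam), X hl → Prop} (h : TD1 P)
    {Q : K → D} (hQ : ∀ (y : K) (lam : D → Prop) (hl : IsUF lam),
      P lam hl (val hl (chk y)) ↔ lam (Q y)) {lam : D → Prop} {hl : IsUF lam} :
    (∀ z, E hl z (val hl (chkT K)) → P lam hl z) ↔ lam (⨅ y, Q y) := by
  have h1 : (⨅ i : K, (⊤ : D)ᶜ ⊔ TD.b1 h (chk i)) = ⨅ y, Q y := by
    refine iInf_congr fun y => ?_
    rw [compl_top, bot_sup_eq]
    exact eq_iff_ultra.2 fun lam hl => by rw [← TD.b1_iff h (hl := hl), hQ y lam hl]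
  rw [← h1]
  exact forall_mem_iff h (x := nm fun v : K => chk v)

theorem exists_chkT_iff' {P : ∀ (lam : D → Prop) (hl : IsUF lam), X hl → Prop} (h : TD1 P)
    {Q : K → D} (hQ : ∀ (y : K) (lam : D → Prop) (hl : IsUF lam),
      P lam hl (val hl (chk y)) ↔ lam (Q y)) {lam : D → Prop} {hl : IsUF lam} :
    (∃ z, E hl z (val hl (chkT K)) ∧ P lam hl z) ↔ lam (⨆ y, Q y) := by
  have h1 : (⨆ i : K, TD.b1 h (chk i)) = ⨆ y, Q y := by
    refine iSup_congr fun y => ?_
    exact eq_iff_ultra.2 fun lam hl => by rw [← TD.b1_iff h (hl := hl), hQ y lam hl]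
  rw [exists_chkT_iff h, h1]

end

end BVM

namespace P96M

open BVM P96 PXY

section
variable {K D : Type u} [LinearOrder K] [WellFoundedLT K] [CompleteBooleanAlgebra D]

/-- the trace of a name on `κ` -/
noncomputable def tr (S : BSet D) (x : K) : D := bmem (chk x) S

theorem tr_iff {S : BSet D} {x : K} {lam : D → Prop} {hl : IsUF lam} :
    E hl (val hl (chk x)) (val hl S) ↔ lam (tr S x) := E_val

/-- the name of `X ∩ a` -/
noncomputable def sN (a : K) (X : K → D) : BSet D := mk (Iio a) (fun x => chk x.1) fun x => X x.1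

/-- the name of `X` -/
noncomputable def sT (X : K → D) : BSet D := mk K (fun x => chk x) X

theorem tr_sT (X : K → D) (x : K) : tr (sT X) x = X x := by
  have h1 : tr (sT X) x = ⨆ y : K, X y ⊓ beq (chk x) (chk y) := rfl
  rw [h1]
  apply le_antisymm
  · refine iSup_le fun y => ?_
    by_cases hxy : x = y
    · rw [hxy]
      exact inf_le_left
    · rw [beq_chk_ne hxy, inf_bot_eq]
      exact bot_le
  · refine le_iSup_of_le x ?_
    rw [beq_refl, inf_top_eq]

theorem tr_sN {a : K} (X : K → D) {x : K} (hx : x < a) : tr (sN a X) x = X x := by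
  have h1 : tr (sN a X) x = ⨆ y : Iio a, X y.1 ⊓ beq (chk x) (chk y.1) := rfl
  rw [h1]
  apply le_antisymm
  · refine iSup_le fun y => ?_
    by_cases hxy : x = y.1
    · rw [hxy]
      exact inf_le_left
    · rw [beq_chk_ne hxy, inf_bot_eq]
      exact bot_le
  · refine le_iSup_of_le (⟨x, hx⟩ : Iio a) ?_
    rw [beq_refl, inf_top_eq]

theorem sN_sub {a : K} {X : K → D} {lam : D → Prop} (hl : IsUF lam) :
    Sub (E hl) (val hl (sN a X)) (val hl (chk a)) :=
  forall_mk (P := fun lam hl z => E hl z (val hl (chk a))) (TD.mem (Tm.var 0) (Tm.const _)) (a := ⊤)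
    (fun i _ _ _ _ => E_chk_of i.2) hl.top

theorem sT_sub {X : K → D} {lam : D → Prop} (hl : IsUF lam) :
    Sub (E hl) (val hl (sT X)) (val hl (chkT K)) :=
  forall_mk (P := fun lam hl z => E hl z (val hl (chkT K))) (TD.mem (Tm.var 0) (Tm.const _)) (a := ⊤)
    (fun i _ _ _ _ => E_chkT i) hl.top

theorem chk_sub {a b : K} (h : a ≤ b) {lam : D → Prop} (hl : IsUF lam) :
    Sub (E hl) (val hl (chk a : BSet D)) (val hl (chk b)) := by
  rcases h.lt_or_eq with h | h
  · exact fun z hz => (isOrd_chk b).trans (E_chk_of h) hz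
  · rw [h]
    exact fun z hz => hz

/-- an element of `chk a` which is in `S` -/
theorem ext_chk {a : K} {S R : BSet D} {lam : D → Prop} {hl : IsUF lam}
    (hS : Sub (E hl) (val hl S) (val hl (chk a))) (hR : Sub (E hl) (val hl R) (val hl (chk a)))
    {d : D} (hd : lam d) (h : ∀ x < a, d ⊓ tr S x = d ⊓ tr R x) : val hl S = val hl R := by
  have key : ∀ z, E hl z (val hl (chk a)) → (E hl z (val hl S) ↔ E hl z (val hl R)) := by
    refine forall_chk (P := fun lam hl z => (E hl z (val hl S) ↔ E hl z (val hl R)))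
      (TD.iff (TD.mem (Tm.var 0) (Tm.const _)) (TD.mem (Tm.var 0) (Tm.const _))) (a := d) ?_ hd
    intro x hx lam hl hlam
    rw [tr_iff, tr_iff]
    have h3 := h x hx
    constructor
    · intro h4
      exact (hl.inf_iff.1 (h3 ▸ hl.inf hlam h4)).2
    · intro h4
      exact (hl.inf_iff.1 (h3 ▸ hl.inf hlam h4)).2
  exact (zfc hl).ext _ _ fun z => ⟨fun hz => (key z (hS z hz)).1 hz, fun hz => (key z (hR z hz)).2 hz⟩

/-- a name of a subset of `a` is the name given by its trace -/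
theorem eq_sN {a : K} {S : BSet D} {lam : D → Prop} {hl : IsUF lam}
    (hS : Sub (E hl) (val hl S) (val hl (chk a))) : val hl S = val hl (sN a (tr S)) :=
  ext_chk hS (sN_sub hl) hl.top fun x hx => by rw [tr_sN _ hx]

/-! ### Limit points -/

omit [WellFoundedLT K] in
theorem iSup_Ioo (v b : K) (f : K → D) :
    (⨆ y : Iio b, if v < y.1 then f y.1 else ⊥) = ⨆ y : Ioo v b, f y.1 := by
  apply le_antisymm
  · refine iSup_le fun y => ?_
    split_ifs with h
    · exact le_iSup (fun y : Ioo v b => f y.1) ⟨y.1, h, y.2⟩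
    · exact bot_le
  · refine iSup_le fun y => ?_
    refine le_iSup_of_le (⟨y.1, y.2.2⟩ : Iio b) ?_
    rw [if_pos y.2.1]

omit [WellFoundedLT K] in
theorem iSup_Ioi (v : K) (f : K → D) : (⨆ y : K, if v < y then f y else ⊥) = ⨆ y : Ioi v, f y.1 := by
  apply le_antisymm
  · refine iSup_le fun y => ?_
    split_ifs with h
    · exact le_iSup (fun y : Ioi v => f y.1) ⟨y, h⟩
    · exact bot_le
  · refine iSup_le fun y => ?_
    refine le_iSup_of_le y.1 ?_
    rw [if_pos (show v < y.1 from y.2)]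

theorem mem_if {S : BSet D} {v y : K} {lam : D → Prop} {hl : IsUF lam} :
    (E hl (val hl (chk y)) (val hl S) ∧ E hl (val hl (chk v)) (val hl (chk y))) ↔
      lam (if v < y then tr S y else ⊥) := by
  rw [E_chk]
  split_ifs with h
  · rw [tr_iff]
    exact ⟨fun h => h.1, fun h' => ⟨h', h⟩⟩
  · exact ⟨fun h' => (h h'.2).elim, fun h' => (hl.bot h').elim⟩

/-- `S` is unbounded in `a` -/
theorem unb_iff {S : BSet D} {b : K} {lam : D → Prop} {hl : IsUF lam} :
    (∀ x, E hl x (val hl (chk b)) → ∃ y, E hl y (val hl (chk b)) ∧ E hl y (val hl S) ∧ E hl x y) ↔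
      lam (unbV (tr S) b) := by
  refine forall_chk_iff' (P := fun lam hl x => ∃ y, E hl y (val hl (chk b)) ∧ E hl y (val hl S) ∧
    E hl x y) ?_ ?_
  · exact TD.ex (P := fun lam hl y v => E hl y (val hl (chk b)) ∧ E hl y (val hl S) ∧ E hl (v 0) y)
      (TD.and (TD.mem (Tm.var 0) (Tm.const _)) (TD.and (TD.mem (Tm.var 0) (Tm.const _))
        (TD.mem (Tm.var 1) (Tm.var 0))))
  · intro v lam hl
    rw [← iSup_Ioo v.1 b (tr S)]
    exact exists_chk_iff' (P := fun lam hl y => E hl y (val hl S) ∧ E hl (val hl (chk v.1)) y)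
      (TD.and (TD.mem (Tm.var 0) (Tm.const _)) (TD.mem (Tm.const _) (Tm.var 0)))
      fun y lam hl => mem_if

theorem cof_iff {S : BSet D} {lam : D → Prop} {hl : IsUF lam} :
    (∀ x, E hl x (val hl (chkT K)) → ∃ y, E hl y (val hl (chkT K)) ∧ E hl y (val hl S) ∧ E hl x y) ↔
      lam (cofT (K := K) (tr S)) := by
  refine forall_chkT_iff' (P := fun lam hl x => ∃ y, E hl y (val hl (chkT K)) ∧ E hl y (val hl S) ∧
    E hl x y) ?_ ?_
  · exact TD.ex (P := fun lam hl y v => E hl y (val hl (chkT K)) ∧ E hl y (val hl S) ∧ E hl (v 0) y)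
      (TD.and (TD.mem (Tm.var 0) (Tm.const _)) (TD.and (TD.mem (Tm.var 0) (Tm.const _))
        (TD.mem (Tm.var 1) (Tm.var 0))))
  · intro v lam hl
    rw [← iSup_Ioi v (tr S)]
    exact exists_chkT_iff' (P := fun lam hl y => E hl y (val hl S) ∧ E hl (val hl (chk v)) y)
      (TD.and (TD.mem (Tm.var 0) (Tm.const _)) (TD.mem (Tm.const _) (Tm.var 0)))
      fun y lam hl => mem_if

theorem limPt_of {S : BSet D} {b : K} {lam : D → Prop} {hl : IsUF lam}
    (h : IsLimPt (E hl) (val hl S) (val hl (chk b))) : Lim b ∧ lam (unbV (tr S) b) := by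
  have h1 : lam (unbV (tr S) b) := unb_iff.1 fun x hx => by
    obtain ⟨y, h1, h2, h3⟩ := h.2 x hx
    exact ⟨y, h3, h1, h2⟩
  refine ⟨⟨?_, fun x hx => ?_⟩, h1⟩
  · by_contra hn
    push Not at hn
    obtain ⟨x, hx⟩ := h.1
    exact isEmp_chk (fun x hx => absurd hx (not_lt.2 (hn x))) x hx
  · by_contra hn
    push Not at hn
    have h2 := hl.mono (iInf_le (fun x : Iio b => ⨆ y : Ioo x.1 b, tr S y.1) ⟨x, hx⟩) h1
    refine hl.bot (hl.mono (iSup_le fun y => ?_) h2)
    exact absurd y.2.2 (not_lt.2 (hn y.1 y.2.1))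

theorem limPt_iff {S : BSet D} {b : K} {lam : D → Prop} {hl : IsUF lam} :
    IsLimPt (E hl) (val hl S) (val hl (chk b)) ↔ Lim b ∧ lam (unbV (tr S) b) := by
  refine ⟨limPt_of, fun h => ⟨?_, fun x hx => ?_⟩⟩
  · obtain ⟨x, hx⟩ := h.1.1
    exact ⟨_, E_chk_of hx⟩
  · obtain ⟨y, h1, h2, h3⟩ := unb_iff.2 h.2 x hx
    exact ⟨y, h2, h3, h1⟩

theorem isLimO_iff {b : K} {lam : D → Prop} {hl : IsUF lam} :
    IsLimO (E hl) (val hl (chk b : BSet D)) ↔ Lim b := by
  constructor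
  · intro h
    refine (limPt_of (S := chk b) (hl := hl) ⟨h.2.1, fun x hx => ?_⟩).1
    obtain ⟨y, h1, h2⟩ := h.2.2 x hx
    exact ⟨y, h1, h2, h1⟩
  · intro h
    have h1 : IsLimPt (E hl) (val hl (chk b : BSet D)) (val hl (chk b)) := by
      refine limPt_iff.2 ⟨h, ?_⟩
      refine hl.mono (le_iInf fun x => ?_) hl.top
      obtain ⟨y, h1, h2⟩ := h.2 x.1 x.2
      refine le_iSup_of_le (⟨y, h1, h2⟩ : Ioo x.1 b) ?_
      rw [le_iff_ultra]
      intro lam hl _
      exact (tr_iff (hl := hl)).1 (E_chk_of h2)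
    refine ⟨isOrd_chk b, h1.1, fun x hx => ?_⟩
    obtain ⟨y, _, h3, h4⟩ := h1.2 x hx
    exact ⟨y, h4, h3⟩

/-! ### Clubs -/

omit [WellFoundedLT K] in
theorem unbV_congr {X Y : K → D} {b : K} (h : ∀ x < b, X x = Y x) : unbV X b = unbV Y b := by
  unfold unbV
  refine iInf_congr fun x => iSup_congr fun y => h _ y.2.2

omit [WellFoundedLT K] in
theorem clubV_congr {X Y : K → D} {b : K} (h : ∀ x < b, X x = Y x) : clubV X b = clubV Y b := by
  unfold clubV
  rw [unbV_congr h]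
  congr 1
  refine iInf_congr fun c => ?_
  rw [unbV_congr fun x hx => h x (hx.trans c.2.1), h c.1 c.2.1]

omit [WellFoundedLT K] in
theorem clubT_congr {X Y : K → D} (h : ∀ x, X x = Y x) : clubT X = clubT Y := by
  rw [funext h]

theorem clo_iff {S : BSet D} {a : K} {lam : D → Prop} {hl : IsUF lam} :
    (∀ b, E hl b (val hl (chk a)) → IsLimPt (E hl) (val hl S) b → E hl b (val hl S)) ↔
      lam (⨅ b : {b : K // b < a ∧ Lim b}, (unbV (tr S) b.1)ᶜ ⊔ tr S b.1) := by
  classical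
  have h0 : (⨅ b : Iio a, if Lim b.1 then (unbV (tr S) b.1)ᶜ ⊔ tr S b.1 else ⊤) =
      ⨅ b : {b : K // b < a ∧ Lim b}, (unbV (tr S) b.1)ᶜ ⊔ tr S b.1 := by
    apply le_antisymm
    · refine le_iInf fun b => ?_
      refine (iInf_le _ (⟨b.1, b.2.1⟩ : Iio a)).trans ?_
      rw [if_pos b.2.2]
    · refine le_iInf fun b => ?_
      split_ifs with h
      · exact iInf_le (fun b : {b : K // b < a ∧ Lim b} => (unbV (tr S) b.1)ᶜ ⊔ tr S b.1)
          ⟨b.1, b.2, h⟩
      · exact le_top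
  rw [← h0]
  refine forall_chk_iff' (P := fun lam hl b => IsLimPt (E hl) (val hl S) b → E hl b (val hl S))
    (TD.imp (TD.fo2 (R := fun _ E a b => IsLimPt E a b) (IsLimPt.fo 0 1) (Tm.const _) (Tm.var 0))
      (TD.mem (Tm.var 0) (Tm.const _))) ?_
  intro b lam hl
  rw [limPt_iff, tr_iff]
  split_ifs with h
  · rw [hl.sup_iff, hl.compl_iff]
    tauto
  · exact ⟨fun _ => hl.top, fun _ h' => (h h'.1).elim⟩

theorem cloT_iff {S : BSet D} {lam : D → Prop} {hl : IsUF lam} :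
    (∀ b, E hl b (val hl (chkT K)) → IsLimPt (E hl) (val hl S) b → E hl b (val hl S)) ↔
      lam (⨅ b : {b : K // Lim b}, (unbV (tr S) b.1)ᶜ ⊔ tr S b.1) := by
  classical
  have h0 : (⨅ b : K, if Lim b then (unbV (tr S) b)ᶜ ⊔ tr S b else ⊤) =
      ⨅ b : {b : K // Lim b}, (unbV (tr S) b.1)ᶜ ⊔ tr S b.1 := by
    apply le_antisymm
    · refine le_iInf fun b => ?_
      refine (iInf_le _ b.1).trans ?_
      rw [if_pos b.2]
    · refine le_iInf fun b => ?_
      split_ifs with h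
      · exact iInf_le (fun b : {b : K // Lim b} => (unbV (tr S) b.1)ᶜ ⊔ tr S b.1) ⟨b, h⟩
      · exact le_top
  rw [← h0]
  refine forall_chkT_iff' (P := fun lam hl b => IsLimPt (E hl) (val hl S) b → E hl b (val hl S))
    (TD.imp (TD.fo2 (R := fun _ E a b => IsLimPt E a b) (IsLimPt.fo 0 1) (Tm.const _) (Tm.var 0))
      (TD.mem (Tm.var 0) (Tm.const _))) ?_
  intro b lam hl
  rw [limPt_iff, tr_iff]
  split_ifs with h
  · rw [hl.sup_iff, hl.compl_iff]
    tauto
  · exact ⟨fun _ => hl.top, fun _ h' => (h h'.1).elim⟩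

theorem club_iff {S : BSet D} {a : K} {lam : D → Prop} {hl : IsUF lam} :
    IsClub (E hl) (val hl S) (val hl (chk a)) ↔
      Sub (E hl) (val hl S) (val hl (chk a)) ∧ lam (clubV (tr S) a) := by
  unfold clubV
  rw [hl.inf_iff, ← clo_iff (hl := hl), ← unb_iff (hl := hl)]
  constructor
  · intro h
    refine ⟨h.1, fun x hx => ?_, h.2.2⟩
    obtain ⟨y, h1, h2⟩ := h.2.1 x hx
    exact ⟨y, h.1 y h1, h1, h2⟩
  · intro h
    refine ⟨h.1, fun x hx => ?_, h.2.2⟩
    obtain ⟨y, _, h2, h3⟩ := h.2.1 x hx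
    exact ⟨y, h2, h3⟩

theorem clubT_iff {S : BSet D} {lam : D → Prop} {hl : IsUF lam} :
    IsClub (E hl) (val hl S) (val hl (chkT K)) ↔
      Sub (E hl) (val hl S) (val hl (chkT K)) ∧ lam (clubT (K := K) (tr S)) := by
  unfold clubT
  rw [hl.inf_iff, ← cloT_iff (hl := hl), ← cof_iff (hl := hl)]
  constructor
  · intro h
    refine ⟨h.1, fun x hx => ?_, h.2.2⟩
    obtain ⟨y, h1, h2⟩ := h.2.1 x hx
    exact ⟨y, h.1 y h1, h1, h2⟩
  · intro h
    refine ⟨h.1, fun x hx => ?_, h.2.2⟩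
    obtain ⟨y, _, h2, h3⟩ := h.2.1 x hx
    exact ⟨y, h2, h3⟩

end

end P96M
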