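import Pool.Agent.W_MP_960bf8_h40.Tools

/-!
# MP_960bf8_lc : `□(κ)` and `◇(κ)` in the model
-/

set_option autoImplicit false

universe u

open Cardinal Set HESR IM.BSet SQR
open IM (BSet)

namespace P96M

open BVM P96 PXY

section
variable {K D : Type u} [LinearOrder K] [WellFoundedLT K] [CompleteBooleanAlgebra D]

/-- the name of the sequence `⟨T a ∩ a : a⟩` -/
noncomputable def sq (T : K → K → D) : BSet D := fnB (fun a : K => chk a) fun a => sN a (T a)

theorem isFun_sq (T : K → K → D) {lam : D → Prop} (hl : IsUF lam) :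
    IsFun (E hl) (val hl (sq T)) (val hl (chkT K)) := by
  refine isFun_fnB fun a b => ?_
  by_cases h : a = b
  · subst h
    rw [beq_refl (sN a (T a))]
    exact le_top
  · rw [beq_chk_ne h]
    exact bot_le

theorem app_sq {T : K → K → D} (a : K) {lam : D → Prop} {hl : IsUF lam} :
    App (E hl) (val hl (sq T)) (val hl (chk a)) (val hl (sN a (T a))) :=
  app_fnB_of (f := fun a : K => (chk a : BSet D)) (g := fun a => sN a (T a)) a

theorem eq_sq {T : K → K → D} {a : K} {lam : D → Prop} {hl : IsUF lam} {C : X hl}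
    (h : App (E hl) (val hl (sq T)) (val hl (chk a)) C) : C = val hl (sN a (T a)) :=
  (isFun_sq T hl).val (zfc hl) h (app_sq a)

theorem isCap_fo {k : ℕ} {f g l : ∀ (lam : D → Prop) (hl : IsUF lam), (Fin k → X hl) → X hl}
    (hf : Tm f) (hg : Tm g) (hl' : Tm l) :
    TD fun lam hl v => IsCap (E hl) (f lam hl v) (g lam hl v) (l lam hl v) :=
  TD.fo3 (R := fun _ E a b c => IsCap E a b c) (IsCap.fo 0 1 2) hf hg hl'

theorem isClub_fo {k : ℕ} {f g : ∀ (lam : D → Prop) (hl : IsUF lam), (Fin k → X hl) → X hl}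
    (hf : Tm f) (hg : Tm g) : TD fun lam hl v => IsClub (E hl) (f lam hl v) (g lam hl v) :=
  TD.fo2 (R := fun _ E a b => IsClub E a b) (IsClub.fo 0 1) hf hg

theorem isLimPt_fo {k : ℕ} {f g : ∀ (lam : D → Prop) (hl : IsUF lam), (Fin k → X hl) → X hl}
    (hf : Tm f) (hg : Tm g) : TD fun lam hl v => IsLimPt (E hl) (f lam hl v) (g lam hl v) :=
  TD.fo2 (R := fun _ E a b => IsLimPt E a b) (IsLimPt.fo 0 1) hf hg

theorem isLimO_fo {k : ℕ} {f : ∀ (lam : D → Prop) (hl : IsUF lam), (Fin k → X hl) → X hl}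
    (hf : Tm f) : TD fun lam hl v => IsLimO (E hl) (f lam hl v) :=
  TD.fo1 (R := fun _ E a => IsLimO E a) (IsLimO.fo 0) hf

/-- intersection with `b` of a set with given trace -/
theorem isCap_of {b : K} {S R : BSet D} {lam : D → Prop} {hl : IsUF lam}
    (hR : Sub (E hl) (val hl R) (val hl (chk b))) {d : D} (hd : lam d)
    (h : ∀ x < b, d ⊓ tr S x = d ⊓ tr R x) : IsCap (E hl) (val hl R) (val hl S) (val hl (chk b)) := by
  have key : ∀ z, E hl z (val hl (chk b)) → (E hl z (val hl S) ↔ E hl z (val hl R)) := by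
    refine forall_chk (P := fun lam hl z => (E hl z (val hl S) ↔ E hl z (val hl R)))
      (TD.iff (TD.mem (Tm.var 0) (Tm.const _)) (TD.mem (Tm.var 0) (Tm.const _))) (a := d) ?_ hd
    intro x hx lam hl hlam
    rw [tr_iff, tr_iff]
    have h3 := h x hx
    constructor
    · intro h4
      exact (hl.inf_iff.1 (h3 ▸ hl.inf hlam h4)).2
    · intro h4
      exact (hl.inf_iff.1 (h3 ▸ hl.inf hlam h4)).2
  intro z
  exact ⟨fun hz => ⟨(key z (hR z hz)).2 hz, hR z hz⟩, fun hz => (key z hz.2).1 hz.1⟩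

/-- the trace of an intersection -/
theorem tr_of_isCap {b : K} {S R : BSet D} {lam : D → Prop} {hl : IsUF lam}
    (h : IsCap (E hl) (val hl R) (val hl S) (val hl (chk b))) {x : K} (hx : x < b) :
    lam (tr S x) ↔ lam (tr R x) := by
  rw [← tr_iff (hl := hl), ← tr_iff (hl := hl), h]
  exact ⟨fun h1 => ⟨h1, E_chk_of hx⟩, fun h1 => h1.1⟩

/-- the first part of `□` -/
theorem sq_clause {T : K → K → D} (hT1 : ∀ a, Lim a → clubV (T a) a = ⊤)
    (hT2 : ∀ a b, Lim a → Lim b → b < a → ∀ x < b, unbV (T a) b ⊓ T a x = unbV (T a) b ⊓ T b x)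
    {lam : D → Prop} (hl : IsUF lam) : ∀ a, E hl a (val hl (chkT K)) → ∀ C, IsLimO (E hl) a →
      App (E hl) (val hl (sq T)) a C → IsClub (E hl) C a ∧ ∀ b C', E hl b a →
        IsLimPt (E hl) C b → App (E hl) (val hl (sq T)) b C' → IsCap (E hl) C' C b := by
  refine forall_chkT (P := fun lam hl a => ∀ C, IsLimO (E hl) a →
      App (E hl) (val hl (sq T)) a C → IsClub (E hl) C a ∧ ∀ b C', E hl b a →
        IsLimPt (E hl) C b → App (E hl) (val hl (sq T)) b C' → IsCap (E hl) C' C b) ?_ (a := ⊤) ?_ hl.top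
  · refine TD.all (P := fun lam hl C v => IsLimO (E hl) (v 0) →
      App (E hl) (val hl (sq T)) (v 0) C → IsClub (E hl) C (v 0) ∧ ∀ b C', E hl b (v 0) →
        IsLimPt (E hl) C b → App (E hl) (val hl (sq T)) b C' → IsCap (E hl) C' C b) ?_
    refine TD.imp (isLimO_fo (Tm.var 1)) (TD.imp (TD.app (Tm.const _) (Tm.var 1) (Tm.var 0))
      (TD.and (isClub_fo (Tm.var 0) (Tm.var 1)) ?_))
    refine TD.all (P := fun lam hl b v => ∀ C', E hl b (v 1) →
        IsLimPt (E hl) (v 0) b → App (E hl) (val hl (sq T)) b C' → IsCap (E hl) C' (v 0) b) ?_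
    refine TD.all (P := fun lam hl C' v => E hl (v 0) (v 2) →
        IsLimPt (E hl) (v 1) (v 0) → App (E hl) (val hl (sq T)) (v 0) C' →
          IsCap (E hl) C' (v 1) (v 0)) ?_
    exact TD.imp (TD.mem (Tm.var 1) (Tm.var 3)) (TD.imp (isLimPt_fo (Tm.var 2) (Tm.var 1))
      (TD.imp (TD.app (Tm.const _) (Tm.var 1) (Tm.var 0)) (isCap_fo (Tm.var 0) (Tm.var 2) (Tm.var 1))))
  · intro a lam hl _ C hlim hC
    have hla : Lim a := isLimO_iff.1 hlim
    rw [eq_sq hC]
    refine ⟨club_iff.2 ⟨sN_sub hl, ?_⟩, ?_⟩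
    · rw [clubV_congr (fun x hx => tr_sN (T a) hx), hT1 a hla]
      exact hl.top
    · have key : ∀ b, E hl b (val hl (chk a)) → ∀ C', IsLimPt (E hl) (val hl (sN a (T a))) b →
          App (E hl) (val hl (sq T)) b C' → IsCap (E hl) C' (val hl (sN a (T a))) b := by
        refine forall_chk (P := fun lam hl b => ∀ C', IsLimPt (E hl) (val hl (sN a (T a))) b →
          App (E hl) (val hl (sq T)) b C' → IsCap (E hl) C' (val hl (sN a (T a))) b) ?_ (a := ⊤) ?_
          hl.top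
        · refine TD.all (P := fun lam hl C' v => IsLimPt (E hl) (val hl (sN a (T a))) (v 0) →
            App (E hl) (val hl (sq T)) (v 0) C' → IsCap (E hl) C' (val hl (sN a (T a))) (v 0)) ?_
          exact TD.imp (isLimPt_fo (Tm.const _) (Tm.var 1)) (TD.imp
            (TD.app (Tm.const _) (Tm.var 1) (Tm.var 0)) (isCap_fo (Tm.var 0) (Tm.const _) (Tm.var 1)))
        · intro b hb lam hl _ C' hlp hC'
          obtain ⟨hlb, hu⟩ := limPt_of hlp
          rw [eq_sq hC']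
          rw [unbV_congr (fun x hx => tr_sN (T a) (hx.trans hb))] at hu
          refine isCap_of (sN_sub hl) hu fun x hx => ?_
          rw [tr_sN _ (hx.trans hb), tr_sN _ hx, hT2 a b hla hlb hb x hx]
      intro b C' hb h1 h2
      exact key b hb C' h1 h2

/-- a name of a subset of `κ` has its values as trace -/
theorem sqr_K (h : Core960 K D) {lam : D → Prop} (hl : IsUF lam) :
    Sqr (E hl) (val hl (chkT K : BSet D)) := by
  obtain ⟨T, hT1, hT2, hT3⟩ := h.sq
  refine ⟨val hl (sq T), isFun_sq T hl, fun a C ha h1 h2 => sq_clause hT1 hT2 hl a ha C h1 h2, ?_⟩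
  rintro ⟨d, hd⟩
  have hTD : TD1 (D := D) fun lam hl d => IsClub (E hl) d (val hl (chkT K)) ∧
      ∀ a C, E hl a (val hl (chkT K)) → IsLimPt (E hl) d a → App (E hl) (val hl (sq T)) a C →
        IsCap (E hl) C d a := by
    refine TD.and (isClub_fo (Tm.var 0) (Tm.const _)) ?_
    refine TD.all (P := fun lam hl a v => ∀ C, E hl a (val hl (chkT K)) → IsLimPt (E hl) (v 0) a →
      App (E hl) (val hl (sq T)) a C → IsCap (E hl) C (v 0) a) ?_
    refine TD.all (P := fun lam hl C v => E hl (v 0) (val hl (chkT K)) → IsLimPt (E hl) (v 1) (v 0) →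
      App (E hl) (val hl (sq T)) (v 0) C → IsCap (E hl) C (v 1) (v 0)) ?_
    exact TD.imp (TD.mem (Tm.var 1) (Tm.const _)) (TD.imp (isLimPt_fo (Tm.var 2) (Tm.var 1))
      (TD.imp (TD.app (Tm.const _) (Tm.var 1) (Tm.var 0)) (isCap_fo (Tm.var 0) (Tm.var 2) (Tm.var 1))))
  obtain ⟨F, c, _, hc0, hF⟩ := exists_forced hTD hd
  refine hT3 (tr F) c hc0 ?_ ?_
  · rw [le_iff_ultra]
    intro lam hl hlam
    exact (clubT_iff.1 (hF lam hl hlam).1).2
  · intro a ha x hx
    rw [eq_iff_ultra]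
    intro lam hl
    simp only [hl.inf_iff]
    refine and_congr_right fun h1 => ?_
    have h2 := (hF lam hl h1.1).2 _ _ (E_chkT a) (limPt_iff.2 ⟨ha, h1.2⟩) (app_sq a)
    rw [tr_of_isCap h2 hx, tr_sN _ hx]

/-- `◇` -/
theorem dia_K (h : Core960 K D) {lam : D → Prop} (hl : IsUF lam) :
    Dia (E hl) (val hl (chkT K : BSet D)) := by
  obtain ⟨A, hA⟩ := h.dia
  refine ⟨val hl (sq A), isFun_sq A hl, ?_⟩
  by_contra hcon
  push Not at hcon
  obtain ⟨X0, D0, hX0, hD0, hno⟩ := hcon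
  have hno' : ¬ ∃ a Y, E hl a D0 ∧ App (E hl) (val hl (sq A)) a Y ∧ IsCap (E hl) Y X0 a := by
    rintro ⟨a, Y, h1, h2, h3⟩
    exact hno a Y h1 h2 h3
  have hT1 : TD1 (D := D) fun lam hl x => ∃ d, Sub (E hl) x (val hl (chkT K)) ∧
      IsClub (E hl) d (val hl (chkT K)) ∧
      ¬ ∃ a Y, E hl a d ∧ App (E hl) (val hl (sq A)) a Y ∧ IsCap (E hl) Y x a := by
    refine TD.ex (P := fun lam hl d v => Sub (E hl) (v 0) (val hl (chkT K)) ∧
      IsClub (E hl) d (val hl (chkT K)) ∧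
      ¬ ∃ a Y, E hl a d ∧ App (E hl) (val hl (sq A)) a Y ∧ IsCap (E hl) Y (v 0) a) ?_
    refine TD.and (TD.sub (Tm.var 1) (Tm.const _)) (TD.and (isClub_fo (Tm.var 0) (Tm.const _))
      (TD.not ?_))
    refine TD.ex (P := fun lam hl a v => ∃ Y, E hl a (v 0) ∧ App (E hl) (val hl (sq A)) a Y ∧
      IsCap (E hl) Y (v 1) a) ?_
    exact TD.ex (P := fun lam hl Y v => E hl (v 0) (v 1) ∧ App (E hl) (val hl (sq A)) (v 0) Y ∧
      IsCap (E hl) Y (v 2) (v 0)) (TD.and (TD.mem (Tm.var 1) (Tm.var 2)) (TD.and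
        (TD.app (Tm.const _) (Tm.var 1) (Tm.var 0)) (isCap_fo (Tm.var 0) (Tm.var 3) (Tm.var 1))))
  obtain ⟨X1, c1, hc1, _, hX1⟩ := exists_forced hT1 ⟨D0, hX0, hD0, hno'⟩
  have hT2 : TD1 (D := D) fun lam hl d => Sub (E hl) (val hl X1) (val hl (chkT K)) ∧
      IsClub (E hl) d (val hl (chkT K)) ∧
      ¬ ∃ a Y, E hl a d ∧ App (E hl) (val hl (sq A)) a Y ∧ IsCap (E hl) Y (val hl X1) a := by
    refine TD.and (TD.sub (Tm.const _) (Tm.const _)) (TD.and (isClub_fo (Tm.var 0) (Tm.const _))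
      (TD.not ?_))
    refine TD.ex (P := fun lam hl a v => ∃ Y, E hl a (v 0) ∧ App (E hl) (val hl (sq A)) a Y ∧
      IsCap (E hl) Y (val hl X1) a) ?_
    exact TD.ex (P := fun lam hl Y v => E hl (v 0) (v 1) ∧ App (E hl) (val hl (sq A)) (v 0) Y ∧
      IsCap (E hl) Y (val hl X1) (v 0)) (TD.and (TD.mem (Tm.var 1) (Tm.var 2)) (TD.and
        (TD.app (Tm.const _) (Tm.var 1) (Tm.var 0)) (isCap_fo (Tm.var 0) (Tm.const _) (Tm.var 1))))
  obtain ⟨d, hd⟩ := hX1 lam hl hc1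
  obtain ⟨D1, c, _, hc0, hD1⟩ := exists_forced hT2 hd
  obtain ⟨b, a, hb0, hbc, hba, hb⟩ := hA (tr X1) (tr D1) c hc0 (by
    rw [le_iff_ultra]
    intro lam hl hlam
    exact (clubT_iff.1 (hD1 lam hl hlam).2.1).2)
  obtain ⟨lam, hl, hlam⟩ := exists_isUF hb0
  refine (hD1 lam hl (hl.mono hbc hlam)).2.2 ⟨_, _, tr_iff.2 (hl.mono hba hlam), app_sq a, ?_⟩
  refine isCap_of (sN_sub hl) hlam fun x hx => ?_
  rw [tr_sN _ hx, hb x hx]

end

end P96M
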